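import Mathlib

set_option autoImplicit false

/-!
# Copyless cost register automata over `ℚ`
-/

namespace Pool.Agent.Q221.CostReg

/-- Terms built from the variables `x_i` (`i : Fin d`) and rational constants by `+` and `·`. -/
inductive Expr (d : ℕ) : Type
  | var : Fin d → Expr d
  | const : ℚ → Expr d
  | add : Expr d → Expr d → Expr d
  | mul : Expr d → Expr d → Expr d

namespace Expr

/-- The number of occurrences of the variable `x_i` in a term. -/
def count {d : ℕ} (i : Fin d) : Expr d → ℕ
  | var j => if j = i then 1 else 0
  | const _ => 0
  | add e f => count i e + count i f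
  | mul e f => count i e + count i f

/-- The value of a term at `x`. -/
def eval {d : ℕ} (x : Fin d → ℚ) : Expr d → ℚ
  | var j => x j
  | const q => q
  | add e f => eval x e + eval x f
  | mul e f => eval x e * eval x f

end Expr

/-- A copyless cost register automaton over `ℚ` with input alphabet `α`. -/
structure CCRA (α : Type) where
  /-- states -/
  Q : Type
  /-- there are finitely many states -/
  fin : Finite Q
  /-- initial state -/
  q₀ : Q
  /-- number of registers -/
  d : ℕ
  /-- next state -/
  next : Q → α → Q
  /-- update tuple `x_j := upd q a j` (applied simultaneously) -/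
  upd : Q → α → Fin d → Expr d
  /-- each variable occurs at most once in the whole tuple -/
  upd_copyless : ∀ q a i, ∑ j, (upd q a j).count i ≤ 1
  /-- initial register values -/
  init : Fin d → ℚ
  /-- output terms -/
  out : Q → Expr d
  /-- each variable occurs at most once in an output term -/
  out_copyless : ∀ q i, (out q).count i ≤ 1

namespace CCRA

variable {α : Type} (A : CCRA α)

/-- Configuration reached from `c` by reading a word. -/
def run (c : A.Q × (Fin A.d → ℚ)) (w : List α) : A.Q × (Fin A.d → ℚ) :=
  w.foldl (fun c a => (A.next c.1 a, fun j => (A.upd c.1 a j).eval c.2)) c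

/-- The value of the automaton on a word. -/
def value (w : List α) : ℚ :=
  (A.out (A.run (A.q₀, A.init) w).1).eval (A.run (A.q₀, A.init) w).2

end CCRA

/-- `f` is recognisable by a copyless cost register automaton over `ℚ`. -/
def Recognisable {α : Type} (f : List α → ℚ) : Prop :=
  ∃ A : CCRA α, ∀ w, A.value w = f w

end Pool.Agent.Q221.CostReg
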