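import Pool.Agent.Q221.CostReg.Def

set_option autoImplicit false

/-!
# Flow of registers in a copyless automaton, over an arbitrary commutative ring
-/

namespace Pool.Agent.Q221.CostReg

variable {R : Type} [CommRing R]

namespace Expr

/-- Evaluation in a ring `R`, constants being interpreted by `c`. -/
def evalR {d : ℕ} (c : ℚ → R) (x : Fin d → R) : Expr d → R
  | var j => x j
  | const q => c q
  | add e f => evalR c x e + evalR c x f
  | mul e f => evalR c x e * evalR c x f

theorem evalR_congr {d : ℕ} (c : ℚ → R) (x y : Fin d → R) (e : Expr d)
    (h : ∀ i, e.count i ≠ 0 → x i = y i) : e.evalR c x = e.evalR c y := by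
  induction e with
  | var j => exact h j (by simp [count])
  | const q => rfl
  | add e f he hf =>
    simp only [evalR]
    rw [he fun i hi => h i (by simp only [count]; omega), hf fun i hi => h i (by simp only [count]; omega)]
  | mul e f he hf =>
    simp only [evalR]
    rw [he fun i hi => h i (by simp only [count]; omega), hf fun i hi => h i (by simp only [count]; omega)]

theorem evalR_update {d : ℕ} (c : ℚ → R) (x : Fin d → R) (i : Fin d) (e : Expr d)
    (h : e.count i = 0) (s : R) : e.evalR c (Function.update x i s) = e.evalR c x := by
  apply evalR_congr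
  intro j hj
  have : j ≠ i := by rintro rfl; exact hj h
  simp [this]

theorem evalR_affine {d : ℕ} (c : ℚ → R) (x : Fin d → R) (i : Fin d) (e : Expr d)
    (h : e.count i ≤ 1) : ∃ a b : R, ∀ s, e.evalR c (Function.update x i s) = a * s + b := by
  induction e with
  | var j =>
    by_cases hj : j = i
    · subst hj; exact ⟨1, 0, fun s => by simp [evalR]⟩
    · exact ⟨0, x j, fun s => by simp [evalR, hj]⟩
  | const q => exact ⟨0, c q, fun s => by simp [evalR]⟩
  | add e f he hf =>
    simp only [count] at h
    obtain ⟨a, b, h1⟩ := he (by omega)
    obtain ⟨a', b', h2⟩ := hf (by omega)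
    exact ⟨a + a', b + b', fun s => by simp only [evalR, h1, h2]; ring⟩
  | mul e f he hf =>
    simp only [count] at h
    by_cases h0 : e.count i = 0
    · obtain ⟨a', b', h2⟩ := hf (by omega)
      refine ⟨e.evalR c x * a', e.evalR c x * b', fun s => ?_⟩
      simp only [evalR, h2, evalR_update c x i e h0]; ring
    · obtain ⟨a', b', h2⟩ := he (by omega)
      refine ⟨a' * f.evalR c x, b' * f.evalR c x, fun s => ?_⟩
      simp only [evalR, h2, evalR_update c x i f (by omega)]; ring

end Expr

namespace CCRA

variable {α : Type} (A : CCRA α)

/-- One step over `R`. -/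
def stepR (c : ℚ → R) (s : A.Q × (Fin A.d → R)) (a : α) : A.Q × (Fin A.d → R) :=
  (A.next s.1 a, fun j => (A.upd s.1 a j).evalR c s.2)

/-- Run over `R`. -/
def runR (c : ℚ → R) (s : A.Q × (Fin A.d → R)) (w : List α) : A.Q × (Fin A.d → R) :=
  w.foldl (A.stepR c) s

theorem runR_append (c : ℚ → R) (s : A.Q × (Fin A.d → R)) (v w : List α) :
    A.runR c s (v ++ w) = A.runR c (A.runR c s v) w := by
  simp [runR, List.foldl_append]

/-- The register into which register `i` flows (if any). -/
noncomputable def flow (q : A.Q) (a : α) (i : Fin A.d) : Option (Fin A.d) :=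
  open Classical in if h : ∃ j, (A.upd q a j).count i ≠ 0 then some h.choose else none

theorem flow_unique (q : A.Q) (a : α) (i j j' : Fin A.d) (h : (A.upd q a j).count i ≠ 0)
    (h' : (A.upd q a j').count i ≠ 0) : j = j' := by
  by_contra hne
  have h1 := A.upd_copyless q a i
  have h2 : (A.upd q a j).count i + (A.upd q a j').count i ≤ ∑ j, (A.upd q a j).count i := by
    have h3 := Finset.sum_pair (f := fun j => (A.upd q a j).count i) hne
    rw [← h3]
    exact Finset.sum_le_sum_of_subset (Finset.subset_univ _)
  omega

theorem flow_eq_some (q : A.Q) (a : α) (i j : Fin A.d) :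
    A.flow q a i = some j ↔ (A.upd q a j).count i ≠ 0 := by
  classical
  unfold flow
  constructor
  · intro h
    split_ifs at h with h1
    · obtain rfl := Option.some.inj h
      exact h1.choose_spec
  · intro h
    have h1 : ∃ j, (A.upd q a j).count i ≠ 0 := ⟨j, h⟩
    rw [dif_pos h1, A.flow_unique q a i _ _ h1.choose_spec h]

theorem flow_eq_none (q : A.Q) (a : α) (i : Fin A.d) :
    A.flow q a i = none ↔ ∀ j, (A.upd q a j).count i = 0 := by
  constructor
  · intro h j
    by_contra hj
    rw [(A.flow_eq_some q a i j).2 hj] at h
    exact absurd h (by simp)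
  · intro h
    cases h1 : A.flow q a i with
    | none => rfl
    | some j => exact absurd (h j) ((A.flow_eq_some q a i j).1 h1)

/-- Action of a letter on pairs (state, register). -/
noncomputable def act (a : α) (s : A.Q × Option (Fin A.d)) : A.Q × Option (Fin A.d) :=
  (A.next s.1 a, s.2.bind (A.flow s.1 a))

/-- Action of a word. -/
noncomputable def actW (w : List α) (s : A.Q × Option (Fin A.d)) : A.Q × Option (Fin A.d) :=
  w.foldl (fun s a => A.act a s) s

theorem actW_cons (a : α) (w : List α) (s : A.Q × Option (Fin A.d)) :
    A.actW (a :: w) s = A.actW w (A.act a s) := rfl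

theorem actW_append (v w : List α) : A.actW (v ++ w) = A.actW w ∘ A.actW v := by
  funext s; simp [actW, List.foldl_append]

theorem actW_fst (w : List α) (q : A.Q) (o o' : Option (Fin A.d)) :
    (A.actW w (q, o)).1 = (A.actW w (q, o')).1 := by
  induction w generalizing q o o' with
  | nil => rfl
  | cons a w ih => rw [actW_cons, actW_cons]; exact ih _ _ _

theorem actW_none (w : List α) (q : A.Q) : (A.actW w (q, none)).2 = none := by
  induction w generalizing q with
  | nil => rfl
  | cons a w ih => rw [actW_cons]; exact ih _

theorem runR_fst (c : ℚ → R) (w : List α) (q : A.Q) (x : Fin A.d → R) (o : Option (Fin A.d)) :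
    (A.runR c (q, x) w).1 = (A.actW w (q, o)).1 := by
  induction w generalizing q x o with
  | nil => rfl
  | cons a w ih => rw [actW_cons]; exact ih _ _ _

/-- Register `j` after reading `w` depends only on the registers flowing into it. -/
theorem runR_congr (c : ℚ → R) (w : List α) (q : A.Q) (x y : Fin A.d → R) (j : Fin A.d)
    (h : ∀ i, (A.actW w (q, some i)).2 = some j → x i = y i) :
    (A.runR c (q, x) w).2 j = (A.runR c (q, y) w).2 j := by
  induction w generalizing q x y with
  | nil => exact h j rfl
  | cons a w ih =>
    apply ih
    intro l hl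
    apply Expr.evalR_congr
    intro i hi
    apply h
    rw [actW_cons]
    have : A.act a (q, some i) = (A.next q a, some l) := by
      simp only [act, Option.bind_some, Prod.mk.injEq, true_and]
      exact (A.flow_eq_some q a i l).2 hi
    rw [this]; exact hl

/-- Register `j` after reading `w` is an affine function of the initial value of register `i`. -/
theorem runR_affine (c : ℚ → R) (w : List α) (q : A.Q) (x : Fin A.d → R) (i j : Fin A.d) :
    ∃ a b : R, ∀ s, (A.runR c (q, Function.update x i s) w).2 j = a * s + b := by
  induction w generalizing q x i with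
  | nil =>
    by_cases hj : j = i
    · subst hj; exact ⟨1, 0, fun s => by simp [runR]⟩
    · exact ⟨0, x j, fun s => by simp [runR, hj]⟩
  | cons a w ih =>
    cases h1 : A.flow q a i with
    | none =>
      rw [flow_eq_none] at h1
      refine ⟨0, (A.runR c (q, x) (a :: w)).2 j, fun s => ?_⟩
      have : A.stepR c (q, Function.update x i s) a = A.stepR c (q, x) a := by
        simp only [stepR, Prod.mk.injEq, true_and]
        funext l
        exact Expr.evalR_update c x i _ (h1 l) s
      simp only [runR, List.foldl_cons, this]; ring
    | some l =>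
      have h2 := (A.flow_eq_some q a i l).1 h1
      have h3 : (A.upd q a l).count i ≤ 1 :=
        (Finset.single_le_sum (f := fun j => (A.upd q a j).count i) (fun _ _ => Nat.zero_le _)
          (Finset.mem_univ l)).trans (A.upd_copyless q a i)
      obtain ⟨a1, b1, h4⟩ := Expr.evalR_affine c x i _ h3
      obtain ⟨a2, b2, h5⟩ := ih (A.next q a) (A.stepR c (q, x) a).2 l
      refine ⟨a2 * a1, a2 * b1 + b2, fun s => ?_⟩
      have : A.stepR c (q, Function.update x i s) a =
          (A.next q a, Function.update (A.stepR c (q, x) a).2 l (a1 * s + b1)) := by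
        simp only [stepR, Prod.mk.injEq, true_and]
        funext l'
        by_cases hl : l' = l
        · subst hl; simp [h4]
        · simp only [Function.update_of_ne hl]
          apply Expr.evalR_update
          by_contra hc
          exact hl (A.flow_unique q a i _ _ hc h2)
      simp only [runR, List.foldl_cons, this]
      have h6 := h5 (a1 * s + b1)
      simp only [runR] at h6
      rw [h6]; ring

end CCRA

end Pool.Agent.Q221.CostReg
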