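import Pool.Agent.Q221.CostReg.Reduce

set_option autoImplicit false

/-!
# Recognisable functions over `ℚ` are not closed under reversal
-/

namespace Pool.Agent.Q221.CostReg

section func

variable {α : Type} (a₀ a₁ : α)

open Classical in
/-- One step of the automaton for `f`: `a₁` sets `(x, y) := (x * y + 1, 0)`, `a₀` sets `y := y + 1`,
all other letters do nothing. -/
noncomputable def step {R : Type} [CommRing R] (a : α) (s : R × R) : R × R :=
  if a = a₁ then (s.1 * s.2 + 1, 0) else if a = a₀ then (s.1, s.2 + 1) else s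

/-- The function `f`. -/
noncomputable def f (w : List α) : ℚ := (w.foldl (fun s a => step a₀ a₁ a s) ((1 : ℚ), 0)).1

/-- The integer version of the reversed function. -/
noncomputable def gZ (w : List α) : ℤ := (w.foldr (step a₀ a₁) ((1 : ℤ), 0)).1

theorem f_reverse (w : List α) : f a₀ a₁ w.reverse = (gZ a₀ a₁ w : ℚ) := by
  unfold f gZ
  rw [List.foldl_reverse]
  have h : w.foldr (step a₀ a₁) ((1 : ℚ), 0) =
      (((w.foldr (step a₀ a₁) ((1 : ℤ), 0)).1 : ℚ), ((w.foldr (step a₀ a₁) ((1 : ℤ), 0)).2 : ℚ)) := by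
    induction w with
    | nil => simp
    | cons a w ih =>
      simp only [List.foldr_cons, ih, step]
      split_ifs <;> simp
  rw [h]

open Classical in
/-- The updates of the automaton recognising `f`. -/
noncomputable def fUpd (a : α) : Fin 2 → Expr 2 :=
  if a = a₁ then ![.add (.mul (.var 0) (.var 1)) (.const 1), .const 0]
  else if a = a₀ then ![.var 0, .add (.var 1) (.const 1)] else ![.var 0, .var 1]

theorem fUpd_eval (a : α) (j : Fin 2) (s : ℚ × ℚ) : (fUpd a₀ a₁ a j).eval ![s.1, s.2] =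
    (![(step a₀ a₁ a s).1, (step a₀ a₁ a s).2] : Fin 2 → ℚ) j := by
  unfold fUpd step
  split_ifs <;> fin_cases j <;> simp [Expr.eval]

/-- The automaton recognising `f`. -/
noncomputable def fAut : CCRA α where
  Q := Unit
  fin := inferInstance
  q₀ := ()
  d := 2
  next := fun _ _ => ()
  upd := fun _ a => fUpd a₀ a₁ a
  upd_copyless := by
    intro _ a i
    unfold fUpd
    split_ifs <;> fin_cases i <;> simp [Fin.sum_univ_two, Expr.count]
  init := ![1, 0]
  out := fun _ => .var 0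
  out_copyless := by
    intro _ i
    simp only [Expr.count]
    split_ifs <;> simp

theorem fAut_run (w : List α) (s : ℚ × ℚ) : (fAut a₀ a₁).run ((), ![s.1, s.2]) w =
      ((), ![(w.foldl (fun s a => step a₀ a₁ a s) s).1, (w.foldl (fun s a => step a₀ a₁ a s) s).2]) := by
  induction w generalizing s with
  | nil => rfl
  | cons a w ih =>
    have h1 := ih (step a₀ a₁ a s)
    simp only [CCRA.run, List.foldl_cons] at h1 ⊢
    rw [← h1]
    congr 1
    refine Prod.ext rfl ?_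
    funext j
    exact fUpd_eval a₀ a₁ a j s

theorem f_recognisable : Recognisable (f a₀ a₁) := by
  refine ⟨fAut a₀ a₁, fun w => ?_⟩
  have h1 : (fAut a₀ a₁).run ((fAut a₀ a₁).q₀, (fAut a₀ a₁).init) w = _ := fAut_run a₀ a₁ w (1, 0)
  unfold CCRA.value
  rw [h1]
  rfl

/-- `w` acts (for `g`) as the affine map `y ↦ κ + μ y`. -/
def Aff (w : List α) (κ μ : ℤ) : Prop :=
  ∀ y : ℤ, w.foldr (step a₀ a₁) (y, 0) = (κ + μ * y, 0)

variable {a₀ a₁}

theorem Aff.append {v w : List α} {κ μ κ' μ' : ℤ} (h : Aff a₀ a₁ v κ μ) (h' : Aff a₀ a₁ w κ' μ') :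
    Aff a₀ a₁ (v ++ w) (κ + μ * κ') (μ * μ') := by
  intro y
  rw [List.foldr_append, h' y, h]
  congr 1; ring

theorem Aff.rep {w : List α} {κ μ : ℤ} (h : Aff a₀ a₁ w κ μ) (n : ℕ) :
    Aff a₀ a₁ (rep n w) (κ * ∑ i ∈ Finset.range n, μ ^ i) (μ ^ n) := by
  induction n with
  | zero => intro y; simp [CostReg.rep]
  | succ n ih =>
    rw [rep_succ]
    have := h.append ih
    have h1 : κ + μ * (κ * ∑ i ∈ Finset.range n, μ ^ i) = κ * ∑ i ∈ Finset.range (n + 1), μ ^ i := by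
      rw [Finset.sum_range_succ']
      simp only [pow_succ, pow_zero, ← Finset.sum_mul]
      ring
    rw [h1] at this
    rwa [pow_succ']

/-- The block `a₁ a₀ ^ m`. -/
def blk (a₀ a₁ : α) (m : ℕ) : List α := a₁ :: List.replicate m a₀

theorem Aff.blk (hne : a₀ ≠ a₁) (m : ℕ) : Aff a₀ a₁ (blk a₀ a₁ m) 1 m := by
  intro y
  have h : ∀ m : ℕ, (List.replicate m a₀).foldr (step a₀ a₁) (y, (0 : ℤ)) = (y, (m : ℤ)) := by
    intro m
    induction m with
    | zero => simp
    | succ m ih =>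
      rw [List.replicate_succ, List.foldr_cons, ih]
      simp [step, hne]
  simp only [CostReg.blk, List.foldr_cons, h, step, if_true]
  congr 1; ring

theorem gZ_of_aff {w : List α} {κ μ : ℤ} (h : Aff a₀ a₁ w κ μ) : gZ a₀ a₁ w = κ + μ := by
  unfold gZ
  rw [h 1]; ring

end func

theorem zmod_local (p k : ℕ) [Fact p.Prime] (a : ZMod (p ^ k)) : IsUnit a ∨ a ^ k = 0 := by
  have hp : p.Prime := Fact.out
  have : NeZero (p ^ k) := ⟨pow_ne_zero _ hp.ne_zero⟩
  by_cases h : p ∣ a.val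
  · right
    have h1 : a = (a.val : ZMod (p ^ k)) := (ZMod.natCast_zmod_val a).symm
    rw [h1, ← Nat.cast_pow, ZMod.natCast_eq_zero_iff]
    exact pow_dvd_pow_of_dvd h k
  · left
    have h1 : a = (a.val : ZMod (p ^ k)) := (ZMod.natCast_zmod_val a).symm
    rw [h1, ZMod.isUnit_iff_coprime]
    exact Nat.Coprime.pow_right k ((Nat.Prime.coprime_iff_not_dvd hp).2 h).symm

theorem actW_replicate {α : Type} (A : CCRA α) (a : α) (m : ℕ) :
    A.actW (List.replicate m a) = (A.act a)^[m] := by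
  induction m with
  | zero => funext s; rfl
  | succ m ih => rw [List.replicate_succ, Function.iterate_succ, ← ih]; rfl

theorem iterate_idem {S : Type} (g : S → S) (h : g ∘ g = g) (t : ℕ) : g^[t + 1] = g := by
  induction t with
  | zero => rfl
  | succ t ih => rw [Function.iterate_succ, ih, h]

theorem not_recognisable {α : Type} [Finite α] {a₀ a₁ : α} (hne : a₀ ≠ a₁) :
    ¬ Recognisable (fun w => f a₀ a₁ w.reverse) := by
  rintro ⟨A, hA⟩
  have := A.fin
  have hA' : ∀ w, A.value w = ((gZ a₀ a₁ w : ℤ) : ℚ) := fun w => by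
    rw [hA w]; exact f_reverse a₀ a₁ w
  obtain ⟨P', hP⟩ := exists_idem (A.act a₀)
  obtain ⟨P, hPP⟩ : ∃ P, P = P' + 1 := ⟨_, rfl⟩
  rw [← hPP] at hP
  have hPt : ∀ t, (A.act a₀)^[P * (t + 1)] = (A.act a₀)^[P] := by
    intro t
    rw [Function.iterate_mul]
    exact iterate_idem _ hP t
  obtain ⟨N, hN⟩ := exists_idem (A.actW (blk a₀ a₁ P))
  obtain ⟨e, he⟩ : ∃ e, e = (A.actW (blk a₀ a₁ P))^[N + 1] := ⟨_, rfl⟩
  rw [← he] at hN
  obtain ⟨W, hWdef⟩ : ∃ W : ℕ → List α, W = fun t => rep N (blk a₀ a₁ P) ++ blk a₀ a₁ (P * t) :=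
    ⟨_, rfl⟩
  have hW : ∀ t, 1 ≤ t → A.actW (W t) = e := by
    intro t ht
    obtain ⟨t, rfl⟩ := Nat.exists_eq_add_of_le' ht
    rw [hWdef]
    simp only
    rw [A.actW_append, A.actW_rep, he, Function.iterate_succ']
    congr 1
    have h1 : ∀ m, A.actW (blk a₀ a₁ m) = (A.act a₀)^[m] ∘ A.act a₁ := by
      intro m
      rw [← actW_replicate]; rfl
    rw [h1, h1, hPt]
  -- the affine maps
  obtain ⟨K, hK⟩ : ∃ K : ℕ, K = ∑ i ∈ Finset.range N, P ^ i + P ^ N := ⟨_, rfl⟩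
  obtain ⟨Q, hQ⟩ : ∃ Q : ℕ, Q = P ^ N * P := ⟨_, rfl⟩
  have hPpos : 0 < P := by omega
  have hKpos : 0 < K := by rw [hK]; have := Nat.pow_pos (n := N) hPpos; omega
  have hQpos : 0 < Q := by rw [hQ]; positivity
  have hAff : ∀ t : ℕ, Aff a₀ a₁ (W t) K (Q * t) := by
    intro t
    rw [hWdef]
    have h1 := ((Aff.blk hne P).rep N).append (Aff.blk hne (P * t))
    have e1 : ((1 : ℤ) * ∑ i ∈ Finset.range N, (P : ℤ) ^ i + (P : ℤ) ^ N * 1) = (K : ℤ) := by
      rw [hK]; push_cast; ring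
    have e2 : ((P : ℤ) ^ N * ((P * t : ℕ) : ℤ)) = (Q : ℤ) * t := by
      rw [hQ]; push_cast; ring
    rw [e1, e2] at h1
    exact h1
  -- the prime
  obtain ⟨B, hB⟩ := A.exists_bound
  obtain ⟨p, hpge, hp⟩ := Nat.exists_infinite_primes (B + P + 1)
  have : Fact p.Prime := ⟨hp⟩
  have hconst : ∀ q ∈ A.consts, ‖(q : ℚ_[p])‖ ≤ 1 := by
    intro q hq
    apply Padic.norm_rat_le_one
    intro hdvd
    have h1 := Nat.le_of_dvd q.den_pos hdvd
    have h2 := hB q hq
    omega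
  have hp2 : 2 ≤ p := hp.two_le
  obtain ⟨k, hk⟩ : ∃ k, k = K * (1 + Q) * Q * (p - 1) := ⟨_, rfl⟩
  have : NeZero (p ^ k) := ⟨pow_ne_zero _ hp.ne_zero⟩
  obtain ⟨n, hkn, hn⟩ := A.pump (R := ZMod (p ^ k)) (fun q => PadicInt.toZModPow k (cst p q)) k
    (zmod_local p k) e hN (W 1) (W p) (hW 1 le_rfl) (hW p (by omega)) A.q₀
    (fun i => PadicInt.toZModPow k (cst p (A.init i)))
  have hv := A.value_mod p hconst k _ _ (hA' (W 1 ++ W 1 ++ (rep n (W p ++ W 1) ++
    ((W 1 ++ W 1) ++ rep n (W p ++ W 1)))))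
  rw [hn, ← A.value_mod p hconst k _ _ (hA' _)] at hv
  have a1 := (hAff 1).append (hAff 1)
  have ap := ((hAff p).append (hAff 1)).rep n
  rw [gZ_of_aff (a1.append (ap.append (a1.append ap))), gZ_of_aff (a1.append (a1.append ap))] at hv
  push_cast at hv
  -- compute in `ZMod (p ^ k)`
  have hz : ((Q : ZMod (p ^ k)) * p * (Q * 1)) ^ n = 0 := by
    have h1 : ((p : ZMod (p ^ k)) ^ k) = 0 := by
      rw [← Nat.cast_pow, ZMod.natCast_eq_zero_iff]
    have h2 : ((Q : ZMod (p ^ k)) * p * (Q * 1)) ^ k = 0 := by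
      have : ((Q : ZMod (p ^ k)) * p * (Q * 1)) ^ k = (Q * Q) ^ k * (p : ZMod (p ^ k)) ^ k := by
        rw [← mul_pow]; ring
      rw [this, h1, mul_zero]
    exact pow_eq_zero_of_le hkn h2
  have hgeom : (∑ i ∈ Finset.range n, ((Q : ZMod (p ^ k)) * p * (Q * 1)) ^ i) *
      (((Q : ZMod (p ^ k)) * p * (Q * 1)) - 1) = -1 := by
    rw [geom_sum_mul, hz]; ring
  rw [hz] at hv
  obtain ⟨s, hs⟩ : ∃ s, s = ∑ i ∈ Finset.range n, ((Q : ZMod (p ^ k)) * p * (Q * 1)) ^ i :=
    ⟨_, rfl⟩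
  rw [← hs] at hv hgeom
  have hunit : IsUnit ((Q : ZMod (p ^ k)) * Q) := by
    rw [← Nat.cast_mul, ZMod.isUnit_iff_coprime]
    have h1 : ¬ p ∣ P := fun h => by
      have := Nat.le_of_dvd hPpos h
      omega
    have h2 : Nat.Coprime P p := ((Nat.Prime.coprime_iff_not_dvd hp).2 h1).symm
    have h3 : Nat.Coprime Q p := by
      rw [hQ]; exact Nat.Coprime.mul_left (Nat.Coprime.pow_left N h2) h2
    exact Nat.Coprime.pow_right k (Nat.Coprime.mul_left h3 h3)
  have h4 : (1 - (Q : ZMod (p ^ k)) * Q) * ((K + Q * p * K) * s) = K + Q * K := by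
    apply hunit.mul_left_cancel
    linear_combination hv
  have h5 : ((K * (1 + Q) * Q * (p - 1) : ℕ) : ZMod (p ^ k)) = 0 := by
    rw [Nat.cast_mul, Nat.cast_sub (by omega)]
    push_cast
    linear_combination (-(Q : ZMod (p ^ k)) * p * Q + 1) * h4 +
      (1 - (Q : ZMod (p ^ k)) * Q) * (K + Q * p * K) * hgeom
  rw [ZMod.natCast_eq_zero_iff] at h5
  have h6 : 0 < K * (1 + Q) * Q * (p - 1) := by
    have : 0 < p - 1 := by omega
    positivity
  have h7 := Nat.le_of_dvd h6 h5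
  rw [← hk] at h7
  exact absurd h7 (not_le.2 (Nat.lt_pow_self hp.one_lt))

end Pool.Agent.Q221.CostReg
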