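import Pool.Agent.Q221.CostReg.Flow

set_option autoImplicit false

/-!
# A pumping lemma for copyless automata over finite local rings
-/

namespace Pool.Agent.Q221.CostReg

theorem exists_idem {S : Type} [Finite S] (f : S → S) : ∃ n, f^[n + 1] ∘ f^[n + 1] = f^[n + 1] := by
  obtain ⟨a, b, hab, h⟩ := Finite.exists_ne_map_eq_of_infinite (fun n : ℕ => f^[n + 1])
  wlog hlt : a < b generalizing a b
  · exact this b a hab.symm h.symm (by omega)
  obtain ⟨r, rfl⟩ := Nat.exists_eq_add_of_lt hlt
  have h1 : ∀ m, f^[(m + (a + 1)) + (r + 1)] = f^[m + (a + 1)] := by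
    intro m
    have : m + (a + 1) + (r + 1) = m + (a + r + 1 + 1) := by omega
    rw [this, Function.iterate_add, ← h, ← Function.iterate_add]
  have h2 : ∀ j m, f^[(m + (a + 1)) + j * (r + 1)] = f^[m + (a + 1)] := by
    intro j
    induction j with
    | zero => intro m; simp
    | succ j ih =>
      intro m
      have : m + (a + 1) + (j + 1) * (r + 1) = (m + j * (r + 1)) + (a + 1) + (r + 1) := by ring
      rw [this, h1, ← ih m]
      congr 1; ring
  obtain ⟨m, hm⟩ : ∃ m, (a + 1) * (r + 1) = m + (a + 1) := ⟨(a + 1) * r, by ring⟩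
  refine ⟨m + a, ?_⟩
  rw [← Function.iterate_add]
  have h3 := h2 (a + 1) m
  rw [hm] at h3
  exact h3

/-- `n`-fold repetition of a word. -/
def rep {α : Type} (n : ℕ) (u : List α) : List α := (List.replicate n u).flatten

theorem rep_succ {α : Type} (n : ℕ) (u : List α) : rep (n + 1) u = u ++ rep n u := by
  simp [rep, List.replicate_succ]

theorem affine_iterate {R : Type} [CommRing R] [Fintype R] (k : ℕ) (a b : R)
    (h : IsUnit a ∨ a ^ k = 0) (n : ℕ) (hn : n = (k + 1) * (Fintype.card R).factorial) :
    (∀ s, (fun s => a * s + b)^[n] s = s) ∨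
      (∀ s s', (fun s => a * s + b)^[n] s = (fun s => a * s + b)^[n] s') := by
  rcases h with h | h
  · left
    have hb : Function.Bijective (fun s : R => a * s + b) := by
      apply Finite.injective_iff_bijective.1
      intro s t hst
      exact h.mul_left_cancel (add_right_cancel hst)
    classical
    let σ : Equiv.Perm R := Equiv.ofBijective _ hb
    have h1 : σ ^ n = 1 := by
      rw [hn, mul_comm, pow_mul, ← Fintype.card_perm, pow_card_eq_one, one_pow]
    intro s
    have h2 : (σ ^ n) s = s := by rw [h1]; rfl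
    rw [← Equiv.Perm.iterate_eq_pow] at h2
    exact h2
  · right
    intro s s'
    have h1 : ∀ m, (fun s => a * s + b)^[m] s - (fun s => a * s + b)^[m] s' = a ^ m * (s - s') := by
      intro m
      induction m with
      | zero => simp
      | succ m ih =>
        rw [Function.iterate_succ_apply', Function.iterate_succ_apply']
        have : (a * (fun s => a * s + b)^[m] s + b) - (a * (fun s => a * s + b)^[m] s' + b) =
          a * ((fun s => a * s + b)^[m] s - (fun s => a * s + b)^[m] s') := by ring
        rw [this, ih]; ring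
    have h2 : a ^ n = 0 := by
      have : k ≤ n := by
        rw [hn]
        have := Nat.factorial_pos (Fintype.card R)
        nlinarith
      exact pow_eq_zero_of_le this h
    have := h1 n
    rw [h2, zero_mul] at this
    exact sub_eq_zero.1 this

namespace CCRA

variable {α : Type} (A : CCRA α)

theorem actW_rep (n : ℕ) (u : List α) : A.actW (rep n u) = (A.actW u)^[n] := by
  induction n with
  | zero => funext s; simp [rep, actW]
  | succ n ih => rw [rep_succ, actW_append, ih, Function.iterate_succ]

variable {R : Type} [CommRing R]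

theorem pump [Fintype R] (c : ℚ → R) (k : ℕ) (hR : ∀ a : R, IsUnit a ∨ a ^ k = 0)
    (e : A.Q × Option (Fin A.d) → A.Q × Option (Fin A.d)) (he : e ∘ e = e) (u v : List α)
    (hu : A.actW u = e) (hv : A.actW v = e) (q₀ : A.Q) (x₀ : Fin A.d → R) :
    ∃ n, k ≤ n ∧
      A.runR c (q₀, x₀) (u ++ u ++ (rep n (v ++ u) ++ ((u ++ u) ++ rep n (v ++ u)))) =
        A.runR c (q₀, x₀) (u ++ u ++ ((u ++ u) ++ rep n (v ++ u))) := by
  classical
  have hee : ∀ s, e (e s) = e s := fun s => congrFun he s
  obtain ⟨q, hq⟩ : ∃ q, q = (e (q₀, none)).1 := ⟨_, rfl⟩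
  have hnone : ∀ q, (e (q, none)).2 = none := fun q => by rw [← hu]; exact A.actW_none u q
  have hfst : ∀ q o o', (e (q, o)).1 = (e (q, o')).1 := fun q o o' => by
    rw [← hu]; exact A.actW_fst u q o o'
  have hq1 : e (q₀, none) = (q, none) := Prod.ext hq.symm (hnone _)
  have hqq : ∀ o, (e (q, o)).1 = q := by
    intro o
    rw [hfst q o none, ← hq1, hee, hq1]
  -- runs of words acting as `e`
  have hrun : ∀ w, A.actW w = e → ∀ x, A.runR c (q, x) w = (q, (A.runR c (q, x) w).2) := by
    intro w hw x
    refine Prod.ext ?_ rfl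
    rw [A.runR_fst c w q x none, hw, hqq]
  have hrun0 : A.runR c (q₀, x₀) u = (q, (A.runR c (q₀, x₀) u).2) := by
    refine Prod.ext ?_ rfl
    rw [A.runR_fst c u q₀ x₀ none, hu, hq1]
  have hidem : ∀ l i, (e (q, some l)).2 = some i → (e (q, some i)).2 = some i := by
    intro l i hl
    have h1 : e (q, some l) = (q, some i) := Prod.ext (hqq _) hl
    have h2 := hee (q, some l)
    rw [h1] at h2
    rw [h2]
  let T : List α → (Fin A.d → R) → (Fin A.d → R) := fun w x => (A.runR c (q, x) w).2
  have hT : ∀ w, A.actW w = e → ∀ x, A.runR c (q, x) w = (q, T w x) := hrun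
  let Good : (Fin A.d → R) → Prop := fun x => ∀ i, (e (q, some i)).2 ≠ some i → x i = T u 0 i
  have hgood : ∀ x, Good (T u x) := by
    intro x i hi
    apply A.runR_congr
    intro l hl
    rw [hu] at hl
    exact absurd (hidem l i hl) hi
  -- coordinatewise affine
  have haff : ∀ w, A.actW w = e → ∃ a b : Fin A.d → R, ∀ x, Good x → ∀ j,
      T w x j = a j * x j + b j := by
    intro w hw
    have h1 : ∀ j, ∃ a b : R, ∀ x, Good x → T w x j = a * x j + b := by
      intro j
      obtain ⟨a, b, hab⟩ := A.runR_affine c w q (T u 0) j j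
      refine ⟨a, b, fun x hx => ?_⟩
      rw [← hab (x j)]
      apply A.runR_congr
      intro i hi
      rw [hw] at hi
      by_cases hij : i = j
      · subst hij; simp
      · rw [Function.update_of_ne hij]
        apply hx
        rw [hi]
        intro h
        exact hij (Option.some.inj h).symm
    choose a b hab using h1
    exact ⟨a, b, fun x hx j => hab j x hx⟩
  have happ : ∀ w w', A.actW w = e → A.actW w' = e → A.actW (w ++ w') = e := by
    intro w w' hw hw'
    rw [A.actW_append, hw, hw', he]
  have hTapp : ∀ w w', A.actW w = e → ∀ x, T (w ++ w') x = T w' (T w x) := by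
    intro w w' hw x
    simp only [T, A.runR_append]
    rw [hrun w hw x]
  have huu := happ u u hu hu
  have hvu := happ v u hv hu
  have hgooduu : ∀ x, Good (T (u ++ u) x) := fun x => by rw [hTapp u u hu]; exact hgood _
  have hgoodvu : ∀ x, Good (T (v ++ u) x) := fun x => by rw [hTapp v u hv]; exact hgood _
  obtain ⟨a, b, hab⟩ := haff (v ++ u) hvu
  obtain ⟨a', b', hab'⟩ := haff (u ++ u) huu
  obtain ⟨n, hn⟩ : ∃ n, n = (k + 1) * (Fintype.card R).factorial := ⟨_, rfl⟩
  have hkn : k ≤ n := by
    rw [hn]
    have := Nat.factorial_pos (Fintype.card R)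
    nlinarith
  have hiter : ∀ m x, Good x → Good ((T (v ++ u))^[m] x) ∧
      ∀ j, (T (v ++ u))^[m] x j = (fun s => a j * s + b j)^[m] (x j) := by
    intro m
    induction m with
    | zero => intro x hx; exact ⟨hx, fun j => rfl⟩
    | succ m ih =>
      intro x hx
      obtain ⟨h1, h2⟩ := ih x hx
      rw [Function.iterate_succ_apply']
      refine ⟨hgoodvu _, fun j => ?_⟩
      rw [hab _ h1 j, h2 j, Function.iterate_succ_apply']
  have hrep : ∀ m x, A.runR c (q, x) (rep m (v ++ u)) = (q, (T (v ++ u))^[m] x) := by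
    intro m
    induction m with
    | zero => intro x; simp [rep, runR]
    | succ m ih =>
      intro x
      rw [rep_succ, A.runR_append, hT (v ++ u) hvu, ih, Function.iterate_succ_apply]
  refine ⟨n, hkn, ?_⟩
  obtain ⟨y, hy⟩ : ∃ y, y = T u ((A.runR c (q₀, x₀) u).2) := ⟨_, rfl⟩
  have hyg : Good y := by rw [hy]; exact hgood _
  have hstart : A.runR c (q₀, x₀) (u ++ u) = (q, y) := by
    rw [A.runR_append, hrun0, hT u hu, hy]
  have h1 : ∀ x, A.runR c (q, x) ((u ++ u) ++ rep n (v ++ u)) =
      (q, (T (v ++ u))^[n] (T (u ++ u) x)) := by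
    intro x
    rw [A.runR_append, hT (u ++ u) huu, hrep]
  rw [A.runR_append, hstart, A.runR_append, hrep, h1, A.runR_append (v := u ++ u), hstart, h1]
  refine Prod.ext rfl ?_
  funext j
  obtain ⟨hg1, hc1⟩ := hiter n y hyg
  obtain ⟨-, hc2⟩ := hiter n (T (u ++ u) y) (hgooduu _)
  obtain ⟨-, hc3⟩ := hiter n (T (u ++ u) ((T (v ++ u))^[n] y)) (hgooduu _)
  simp only
  rw [hc2 j, hc3 j, hab' _ hyg j, hab' _ hg1 j, hc1 j]
  rcases affine_iterate k (a j) (b j) (hR (a j)) n hn with h | h
  · rw [h (y j)]
  · exact h _ _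

end CCRA

end Pool.Agent.Q221.CostReg
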