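import Pool.Agent.Q221.CostReg.Pump

set_option autoImplicit false

/-!
# Reducing a copyless automaton over `ℚ` modulo a prime power
-/

namespace Pool.Agent.Q221.CostReg

namespace Expr

/-- The constants of a term. -/
def consts {d : ℕ} : Expr d → Set ℚ
  | var _ => ∅
  | const q => {q}
  | add e f => consts e ∪ consts f
  | mul e f => consts e ∪ consts f

theorem finite_consts {d : ℕ} (e : Expr d) : e.consts.Finite := by
  induction e with
  | var _ => exact Set.finite_empty
  | const q => exact Set.finite_singleton q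
  | add e f he hf => exact he.union hf
  | mul e f he hf => exact he.union hf

theorem map_evalR {R R' : Type} [CommRing R] [CommRing R'] (φ : R →+* R') {d : ℕ} (c : ℚ → R)
    (x : Fin d → R) (e : Expr d) : φ (e.evalR c x) = e.evalR (fun q => φ (c q)) (fun i => φ (x i)) := by
  induction e with
  | var j => rfl
  | const q => rfl
  | add e f he hf => simp only [evalR, map_add, he, hf]
  | mul e f he hf => simp only [evalR, map_mul, he, hf]

end Expr

section padic

variable (p : ℕ) [Fact p.Prime]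

/-- Rational numbers as `p`-adic integers (junk value `0` if not `p`-integral). -/
noncomputable def cst (q : ℚ) : ℤ_[p] :=
  open Classical in if h : ‖(q : ℚ_[p])‖ ≤ 1 then ⟨(q : ℚ_[p]), h⟩ else 0

theorem coe_cst {q : ℚ} (h : ‖(q : ℚ_[p])‖ ≤ 1) : ((cst p q : ℤ_[p]) : ℚ_[p]) = (q : ℚ_[p]) := by
  unfold cst
  rw [dif_pos h]

theorem coe_evalR {d : ℕ} (x : Fin d → ℤ_[p]) (y : Fin d → ℚ)
    (hxy : ∀ i, ((x i : ℤ_[p]) : ℚ_[p]) = ((y i : ℚ) : ℚ_[p])) (e : Expr d)
    (he : ∀ q ∈ e.consts, ‖(q : ℚ_[p])‖ ≤ 1) :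
    ((e.evalR (cst p) x : ℤ_[p]) : ℚ_[p]) = ((e.eval y : ℚ) : ℚ_[p]) := by
  induction e with
  | var j => exact hxy j
  | const q => exact coe_cst p (he q rfl)
  | add e f h1 h2 =>
    simp only [Expr.evalR, Expr.eval, PadicInt.coe_add, Rat.cast_add]
    rw [h1 fun q hq => he q (Or.inl hq), h2 fun q hq => he q (Or.inr hq)]
  | mul e f h1 h2 =>
    simp only [Expr.evalR, Expr.eval, PadicInt.coe_mul, Rat.cast_mul]
    rw [h1 fun q hq => he q (Or.inl hq), h2 fun q hq => he q (Or.inr hq)]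

end padic

namespace CCRA

variable {α : Type} (A : CCRA α)

/-- All constants occurring in an automaton. -/
def consts : Set ℚ :=
  {q | (∃ s a j, q ∈ (A.upd s a j).consts) ∨ (∃ s, q ∈ (A.out s).consts) ∨ ∃ i, A.init i = q}

theorem finite_consts [Finite α] : A.consts.Finite := by
  have := A.fin
  have h : A.consts ⊆ (⋃ s, ⋃ a, ⋃ j, (A.upd s a j).consts) ∪ ((⋃ s, (A.out s).consts) ∪
      Set.range A.init) := by
    rintro q (⟨s, a, j, h⟩ | ⟨s, h⟩ | ⟨i, h⟩)
    · left; simp only [Set.mem_iUnion]; exact ⟨s, a, j, h⟩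
    · right; left; simp only [Set.mem_iUnion]; exact ⟨s, h⟩
    · right; right; exact ⟨i, h⟩
  refine Set.Finite.subset (Set.Finite.union ?_ (Set.Finite.union ?_ (Set.finite_range _))) h
  · exact Set.finite_iUnion fun s => Set.finite_iUnion fun a => Set.finite_iUnion fun j =>
      Expr.finite_consts _
  · exact Set.finite_iUnion fun s => Expr.finite_consts _

theorem exists_bound [Finite α] : ∃ B : ℕ, ∀ q ∈ A.consts, q.den ≤ B := by
  obtain ⟨B, hB⟩ := (A.finite_consts.image Rat.den).bddAbove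
  exact ⟨B, fun q hq => hB ⟨q, hq, rfl⟩⟩

variable (p : ℕ) [Fact p.Prime]

theorem run_padic (hp : ∀ q ∈ A.consts, ‖(q : ℚ_[p])‖ ≤ 1) (w : List α) (s : A.Q)
    (x : Fin A.d → ℤ_[p]) (y : Fin A.d → ℚ) (hxy : ∀ i, ((x i : ℤ_[p]) : ℚ_[p]) = ((y i : ℚ) : ℚ_[p])) :
    (A.runR (cst p) (s, x) w).1 = (A.run (s, y) w).1 ∧
    ∀ i, (((A.runR (cst p) (s, x) w).2 i : ℤ_[p]) : ℚ_[p]) = (((A.run (s, y) w).2 i : ℚ) : ℚ_[p]) := by
  induction w generalizing s x y with
  | nil => exact ⟨rfl, hxy⟩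
  | cons a w ih =>
    apply ih
    intro i
    exact coe_evalR p x y hxy _ fun q hq => hp q (Or.inl ⟨s, a, i, hq⟩)

theorem run_map {R R' : Type} [CommRing R] [CommRing R'] (φ : R →+* R') (c : ℚ → R) (w : List α)
    (s : A.Q) (x : Fin A.d → R) :
    A.runR (fun q => φ (c q)) (s, fun i => φ (x i)) w =
      ((A.runR c (s, x) w).1, fun i => φ ((A.runR c (s, x) w).2 i)) := by
  induction w generalizing s x with
  | nil => rfl
  | cons a w ih =>
    simp only [runR, List.foldl_cons] at ih ⊢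
    rw [← ih]
    congr 1
    simp only [stepR, Prod.mk.injEq, true_and]
    funext j
    exact (Expr.map_evalR φ c x _).symm

/-- The value of the automaton, if an integer, can be computed modulo `p ^ k`. -/
theorem value_mod (hp : ∀ q ∈ A.consts, ‖(q : ℚ_[p])‖ ≤ 1) (k : ℕ) (w : List α) (z : ℤ)
    (hz : A.value w = z) :
    (z : ZMod (p ^ k)) =
      (A.out (A.runR (fun q => PadicInt.toZModPow k (cst p q))
        (A.q₀, fun i => PadicInt.toZModPow k (cst p (A.init i))) w).1).evalR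
        (fun q => PadicInt.toZModPow k (cst p q))
        (A.runR (fun q => PadicInt.toZModPow k (cst p q))
          (A.q₀, fun i => PadicInt.toZModPow k (cst p (A.init i))) w).2 := by
  rw [A.run_map (PadicInt.toZModPow k) (cst p) w A.q₀ (fun i => cst p (A.init i))]
  simp only
  rw [← Expr.map_evalR]
  have h0 : ∀ i, ((cst p (A.init i) : ℤ_[p]) : ℚ_[p]) = ((A.init i : ℚ) : ℚ_[p]) := fun i =>
    coe_cst p (hp _ (Or.inr (Or.inr ⟨i, rfl⟩)))
  obtain ⟨h1, h2⟩ := A.run_padic p hp w A.q₀ (fun i => cst p (A.init i)) A.init h0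
  have h3 := coe_evalR p _ _ h2 (A.out (A.run (A.q₀, A.init) w).1) fun q hq =>
    hp q (Or.inr (Or.inl ⟨_, hq⟩))
  rw [h1]
  have h4 : (A.out (A.run (A.q₀, A.init) w).1).evalR (cst p)
      (A.runR (cst p) (A.q₀, fun i => cst p (A.init i)) w).2 = (z : ℤ_[p]) := by
    apply Subtype.ext
    have h5 : (A.out (A.run (A.q₀, A.init) w).1).eval (A.run (A.q₀, A.init) w).2 = (z : ℚ) := hz
    rw [h5] at h3
    simpa using h3
  rw [h4]
  simp

end CCRA

end Pool.Agent.Q221.CostReg
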